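import Pool.Agent.H620R2.Gauge.NonNull
import Pool.Agent.H620R2.GaugeX.KeyX
import Pool.Agent.H620R2.GaugeX.X11
import Pool.Agent.H620R2.GaugeX.X12

/-!
# How many oracles put `NEXP` into `P/poly`?

For every gauge `f`, the set of the oracles `A` with `NEXP^A ⊆ P^A/poly` is a null set for `f` if
and only if for every `ε > 0` there are infinitely many `N` with `f N ≤ 2 ^ ((log N) ^ ε)`. The
same holds for the oracles with `NEXP^A ⊆ BPP^A`, and for all sets of oracles between this set and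
the set of the oracles with `NP^A ⊆ coNP^A/poly`.

(It wraps theorems of helper620 and others.)
-/

set_option autoImplicit false

namespace Pool.Agent.Results.MP_70d3b5_lc.GaugeThreshold

open Pool.Agent.H620R2.Gauge

theorem result (f : ℕ → ℝ) :
    (∀ O : Set Oracle,
      (∀ A : Oracle, (∀ L, IsNEXP A L → IsBPP A L) → A ∈ O) →
      (∀ A ∈ O, ∀ L, IsNP A L → WithAdvice (IsNP A) Lᶜ) →
      (Null f O ↔
        ∀ ε : ℝ, 0 < ε → ∃ᶠ N : ℕ in Filter.atTop, f N ≤ 2 ^ (Real.logb 2 N) ^ ε)) ∧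
    (Null f {A : Oracle | ∀ L, IsNEXP A L → WithAdvice (IsP A) L} ↔
      ∀ ε : ℝ, 0 < ε → ∃ᶠ N : ℕ in Filter.atTop, f N ≤ 2 ^ (Real.logb 2 N) ^ ε) ∧
    (Null f {A : Oracle | ∀ L, IsNEXP A L → IsBPP A L} ↔
      ∀ ε : ℝ, 0 < ε → ∃ᶠ N : ℕ in Filter.atTop, f N ≤ 2 ^ (Real.logb 2 N) ^ ε) := by
  refine ⟨keyNE f, keyNE f _ ?_ ?_, keyNE f _ ?_ ?_⟩
  · intro A hA L hL
    exact (hA L hL).withAdvice
  · intro A hA L hL
    exact (hA L hL.isNEXP).compl_np
  · intro A hA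
    exact hA
  · intro A hA L hL
    exact (hA L hL.isNEXP).withAdvice.compl_np

end Pool.Agent.Results.MP_70d3b5_lc.GaugeThreshold
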